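import Pool.Agent.Helper93.TCU.Stmts
import Pool.Agent.Helper93.TCU.Bas

/-!
# E4: large multiplicities are rare
-/

set_option autoImplicit false

namespace Pool.TCU

open Pool.TC Pool.TCM Pool.TCS Finset
open scoped Classical

/-- Markov inequality for `4 ^ count` -/
private theorem E4_markov (hMean : St_Mean) (T A : Type) [Fintype T] [Fintype A] [Nonempty A]
    (R : T → Finset A) (P Lam : ℝ) (K : ℕ) (hP : P ≤ 2) (hK : 24 ≤ K) (hL : Lam ≤ K)
    (hR : (∑ t, ((R t).card : ℝ)) ≤ P * Fintype.card A) :
    ((univ.filter (fun ω : T → A => K < (univ.filter (fun t => ω t ∈ R t)).card)).card : ℝ) ≤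
      Real.exp (-Lam) * Fintype.card (T → A) := by
  have h1 := (hMean T A R).2.2 P hR
  unfold mean at h1
  have hN : (0 : ℝ) < (Fintype.card (T → A) : ℝ) := by
    exact_mod_cast Fintype.card_pos
  rw [div_le_iff₀ hN] at h1
  have h2 : ((univ.filter (fun ω : T → A =>
      K < (univ.filter (fun t => ω t ∈ R t)).card)).card : ℝ) * (4 : ℝ) ^ K ≤
      ∑ ω : T → A, (4 : ℝ) ^ (univ.filter (fun t => ω t ∈ R t)).card := by
    calc ((univ.filter (fun ω : T → A =>
          K < (univ.filter (fun t => ω t ∈ R t)).card)).card : ℝ) * (4 : ℝ) ^ K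
        = ∑ ω ∈ univ.filter (fun ω : T → A =>
          K < (univ.filter (fun t => ω t ∈ R t)).card), (4 : ℝ) ^ K := by
          rw [Finset.sum_const, nsmul_eq_mul]
      _ ≤ ∑ ω ∈ univ.filter (fun ω : T → A =>
          K < (univ.filter (fun t => ω t ∈ R t)).card),
            (4 : ℝ) ^ (univ.filter (fun t => ω t ∈ R t)).card := by
          refine Finset.sum_le_sum (fun ω hω => ?_)
          exact pow_le_pow_right₀ (by norm_num) (mem_filter.1 hω).2.le
      _ ≤ _ := Finset.sum_le_sum_of_subset_of_nonneg (filter_subset _ _)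
          (fun ω _ _ => by positivity)
  have h3 : Real.exp (3 * P) ≤ Real.exp (-Lam) * (4 : ℝ) ^ K := by
    have hlog : (1.38 : ℝ) ≤ Real.log 4 := by
      have h5 : (4 : ℝ) = 2 ^ 2 := by norm_num
      rw [h5, Real.log_pow]
      have h6 := Real.log_two_gt_d9
      push_cast
      linarith
    have h4 : (4 : ℝ) ^ K = Real.exp (Real.log 4 * K) := by
      rw [Real.exp_mul, Real.exp_log (by norm_num), Real.rpow_natCast]
    rw [h4, ← Real.exp_add]
    apply Real.exp_le_exp.2
    have hK' : (24 : ℝ) ≤ K := by exact_mod_cast hK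
    nlinarith
  have h4K : (0 : ℝ) < 4 ^ K := by positivity
  have h5 : ((univ.filter (fun ω : T → A =>
      K < (univ.filter (fun t => ω t ∈ R t)).card)).card : ℝ) * (4 : ℝ) ^ K ≤
      (Real.exp (-Lam) * Fintype.card (T → A)) * (4 : ℝ) ^ K := by
    refine (h2.trans h1).trans ?_
    calc Real.exp (3 * P) * (Fintype.card (T → A) : ℝ)
        ≤ (Real.exp (-Lam) * (4 : ℝ) ^ K) * (Fintype.card (T → A) : ℝ) :=
          mul_le_mul_of_nonneg_right h3 hN.le
      _ = _ := by ring
  exact le_of_mul_le_mul_right h5 h4K

theorem thm_E4 (hMean : St_Mean) : St_E4 := by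
  intro V κ _ _ S U L D l m K x q Lam e h he
  have : Nonempty (Fin l) := Fin.pos_iff_nonempty.1 h.l0
  refine ⟨fun u hu a ha => ?_, fun v => ?_⟩
  · -- the neighbours of `u` with the choice `a`
    have hR : (∑ w : V, (((if w ∈ U ∧ S.adj u w then univ.filter (fun i => e w i = a) else ∅ :
        Finset (Fin l))).card : ℝ)) ≤ 2 * Fintype.card (Fin l) := by
      have h1 : (∑ w : V, (((if w ∈ U ∧ S.adj u w then univ.filter (fun i => e w i = a) else ∅ :
          Finset (Fin l))).card : ℝ)) ≤ ∑ w : V, (if w ∈ Pn S U L u a then (1 : ℝ) else 0) := by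
        refine Finset.sum_le_sum (fun w _ => ?_)
        by_cases hw : w ∈ U ∧ S.adj u w
        · rw [if_pos hw]
          by_cases hP : w ∈ Pn S U L u a
          · rw [if_pos hP]
            have h2 : (univ.filter (fun i => e w i = a)).card ≤ 1 := by
              rw [Finset.card_le_one]
              intro i hi j hj
              exact he.inj w hw.1 ((mem_filter.1 hi).2.trans (mem_filter.1 hj).2.symm)
            exact_mod_cast h2
          · rw [if_neg hP]
            have h2 : univ.filter (fun i => e w i = a) = (∅ : Finset (Fin l)) := by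
              rw [Finset.filter_eq_empty_iff]
              intro i _ hi
              exact hP (mem_filter.2 ⟨mem_univ _, hw.1, hw.2, (he.mem w hw.1 a).2 ⟨i, hi⟩⟩)
            rw [h2, Finset.card_empty, Nat.cast_zero]
        · rw [if_neg hw, Finset.card_empty, Nat.cast_zero]
          split_ifs <;> norm_num
      refine h1.trans ?_
      rw [Finset.sum_ite_mem, Finset.univ_inter, Finset.sum_const, nsmul_eq_mul, mul_one,
        Fintype.card_fin]
      exact h.Pn2 hu ha
    have h3 := E4_markov hMean V (Fin l) (fun w => if w ∈ U ∧ S.adj u w then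
      univ.filter (fun i => e w i = a) else ∅) 2 Lam K le_rfl h.K24 h.LK hR
    refine le_trans (le_of_eq ?_) h3
    congr 1
    refine congrArg Finset.card (Finset.filter_congr (fun ω _ => ?_))
    have h4 : KP S U (oc e ω) u a = univ.filter (fun w =>
        ω w ∈ (if w ∈ U ∧ S.adj u w then univ.filter (fun i => e w i = a) else ∅ :
          Finset (Fin l))) := by
      ext w
      unfold KP oc
      rw [mem_filter, mem_filter]
      by_cases hw : w ∈ U ∧ S.adj u w
      · rw [if_pos hw, mem_filter]
        constructor
        · rintro ⟨_, _, _, h5⟩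
          exact ⟨mem_univ _, mem_univ _, h5⟩
        · rintro ⟨_, _, h5⟩
          exact ⟨mem_univ _, hw.1, hw.2, h5⟩
      · rw [if_neg hw]
        constructor
        · rintro ⟨_, h5, h6, _⟩
          exact absurd ⟨h5, h6⟩ hw
        · rintro ⟨_, h5⟩
          exact absurd h5 (Finset.notMem_empty _)
    rw [h4]
    refine iff_of_eq (congrArg (fun s : Finset V => K < s.card) ?_)
    ext w
    simp only [mem_filter]
  · -- the vertices which use `v`
    have hR : (∑ w : V, (((if w ∈ U then univ.filter (fun i => S.r w (e w i) = v) else ∅ :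
        Finset (Fin l))).card : ℝ)) ≤ 2 * Fintype.card (Fin l) := by
      have h1 : (∑ w : V, ((if w ∈ U then univ.filter (fun i => S.r w (e w i) = v) else ∅ :
          Finset (Fin l))).card) ≤ (Cv S U L v).card := by
        rw [← Finset.card_sigma]
        refine Finset.card_le_card_of_injOn (fun p => (p.1, e p.1 p.2)) ?_ ?_
        · intro p hp
          have h2 := (Finset.mem_sigma.1 hp).2
          by_cases hw : p.1 ∈ U
          · rw [if_pos hw, mem_filter] at h2
            exact mem_coe.2 (mem_filter.2 ⟨mem_univ _, hw, (he.mem p.1 hw _).2 ⟨p.2, rfl⟩, h2.2⟩)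
          · rw [if_neg hw] at h2
            exact absurd h2 (Finset.notMem_empty _)
        · rintro ⟨w, i⟩ hp ⟨w', i'⟩ hp' hpp
          have h2 := (Finset.mem_sigma.1 hp).2
          have hw1 : w = w' := congrArg Prod.fst hpp
          subst hw1
          have h3 : e w i = e w i' := congrArg Prod.snd hpp
          by_cases hw : w ∈ U
          · have h5 : i = i' := he.inj w hw h3
            rw [h5]
          · simp only [if_neg hw] at h2
            exact absurd h2 (Finset.notMem_empty _)
      rw [Fintype.card_fin]
      have h2 : ((∑ w : V, ((if w ∈ U then univ.filter (fun i => S.r w (e w i) = v) else ∅ :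
          Finset (Fin l))).card : ℕ) : ℝ) ≤ ((Cv S U L v).card : ℝ) := by exact_mod_cast h1
      rw [Nat.cast_sum] at h2
      exact h2.trans (h.Cv2 v)
    have h3 := E4_markov hMean V (Fin l) (fun w => if w ∈ U then
      univ.filter (fun i => S.r w (e w i) = v) else ∅) 2 Lam K le_rfl h.K24 h.LK hR
    refine le_trans (le_of_eq ?_) h3
    congr 1
    refine congrArg Finset.card (Finset.filter_congr (fun ω _ => ?_))
    have h4 : univ.filter (fun w => w ∈ U ∧ S.r w (oc e ω w) = v) = univ.filter (fun w =>
        ω w ∈ (if w ∈ U then univ.filter (fun i => S.r w (e w i) = v) else ∅ :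
          Finset (Fin l))) := by
      ext w
      unfold oc
      rw [mem_filter, mem_filter]
      by_cases hw : w ∈ U
      · rw [if_pos hw, mem_filter]
        constructor
        · rintro ⟨_, _, h5⟩
          exact ⟨mem_univ _, mem_univ _, h5⟩
        · rintro ⟨_, _, h5⟩
          exact ⟨mem_univ _, hw, h5⟩
      · rw [if_neg hw]
        constructor
        · rintro ⟨_, h5, _⟩
          exact absurd h5 hw
        · rintro ⟨_, h5⟩
          exact absurd h5 (Finset.notMem_empty _)
    rw [h4]
    refine iff_of_eq (congrArg (fun s : Finset V => K < s.card) ?_)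
    ext w
    simp only [mem_filter]

end Pool.TCU
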